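import Pool.Agent.Y296.ECD.Line

set_option autoImplicit false

/-! For a finite cubic graph `G` (loopless, parallel edges allowed, connected or not) the line
graph of `G` has an even circuit decomposition if and only if `G` has no bridge. For a connected
cubic graph this holds if and only if `G` is 2-connected.

Outline of the proof. (1) No bridge means no cut of size one, and then `ecd_of_bridgeless` (the
theorem behind the starting file `LineGraphEven`) gives the decomposition. (2) Conversely let `X`
be a vertex set with exactly one leaving edge `e0`. Then `X` is odd, and so is the number
`3 * |X|` of edges of the line graph coming from vertices of `X`. In a circuit of the line graph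
the edges coming from `X` and the others can meet only at the vertex `e0`; by the handshake lemma
they do not meet at all, so every circuit of a decomposition lies on one side, and `3 * |X|` is a
sum of even numbers, a contradiction. (3) In a connected cubic graph without cuts of size one no
vertex `w` separates: the three edges at `w` would be split between two cuts. -/

namespace Pool.Agent.Results.MP_3c630e_co.BridgelessIff

open Pool.Agent.Helper879.ECD Pool.Agent.Y296.ECD

/-- The line graph of a cubic graph has an even circuit decomposition if and only if the cubic
graph has no bridge; for a connected cubic graph, if and only if it is 2-connected. -/
theorem result (V E : Type) [Finite V] [Finite E] (G : MGraph V E) (hcubic : G.IsCubic) :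
    (G.lineGraph.HasEvenCircuitDecomposition ↔ ∀ e, ¬ IsBridge G e) ∧
    ((∀ x y, Relation.ReflTransGen (fun a b => ∃ e, G.ends e = s(a, b)) x y) →
      (G.lineGraph.HasEvenCircuitDecomposition ↔ G.TwoConnected)) :=
  main G hcubic

end Pool.Agent.Results.MP_3c630e_co.BridgelessIff
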